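import Pool.Agent.K4H47.RH.Fr
import Pool.Agent.R773.TE.One

/-!
# Perturbed derivatives along periodic orbits near an `Ω`-stable diffeomorphism
-/

set_option autoImplicit false
set_option linter.unusedSectionVars false

open scoped Manifold ContDiff Topology
open Filter Set Metric

universe u

namespace Pool.Agent.K4H47.RH

open Pool.Agent.H718R2.G Pool.Agent.W564.SC Pool.Agent.TH80.OMS Pool.Agent.Y504.CO

variable {n : ℕ} {N : Type u} [TopologicalSpace N] [T2Space N] [CompactSpace N]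
    [ChartedSpace (V n) N] [IsManifold (𝓡 n) ∞ N]

theorem iter_md {r : ℕ∞} (hr : 1 ≤ r) (G : DiffM n N r) (l : ℕ) :
    MDifferentiable (𝓡 n) (𝓡 n) (G^[l]) := by
  induction l with
  | zero => exact mdifferentiable_id
  | succ l ih =>
    rw [Function.iterate_succ']
    exact (diff_md hr G).comp ih

theorem DN_iter_succ {r : ℕ∞} (hr : 1 ≤ r) (G : DiffM n N r) (l : ℕ) (p : N) :
    DN n (G^[l + 1]) p = (DN n G (G^[l] p)).comp (DN n (G^[l]) p) := by
  rw [Function.iterate_succ']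
  exact DN_comp (diff_md hr G _) (iter_md hr G l _)

theorem DN_iter_add {r : ℕ∞} (hr : 1 ≤ r) (G : DiffM n N r) (l m : ℕ) (p : N) :
    DN n (G^[l + m]) p = (DN n (G^[l]) (G^[m] p)).comp (DN n (G^[m]) p) := by
  rw [Function.iterate_add]
  exact DN_comp (iter_md hr G l _) (iter_md hr G m _)

theorem DN_iter_zero {r : ℕ∞} (G : DiffM n N r) (p : N) :
    DN n (G^[0]) p = ContinuousLinearMap.id ℝ (V n) :=
  DN_id_near (Eventually.of_forall fun _ => rfl)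

theorem DN_iter {r : ℕ∞} (hr : 1 ≤ r) (G : DiffM n N r) (l : ℕ) (p : N) :
    DN n (G^[l]) p = pprod (fun i => DN n G (G^[i] p)) l := by
  induction l with
  | zero => exact DN_iter_zero G p
  | succ l ih =>
    rw [DN_iter_succ hr, ih]
    rfl

/-- hyperbolicity in charts and hyperbolicity of the tangent map -/
theorem hypMap_of {r : ℕ∞} (hr : 1 ≤ r) {G : DiffM n N r} {p : N} (hp : IsHyperbolicPer n G p)
    {m : ℕ} (hm : 1 ≤ m) (hmp : G^[m] p = p) : IsHypMap (DN n (G^[m]) p) := by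
  set ψ := chartAt (V n) p with hψ
  have mψ : ψ ∈ IsManifold.maximalAtlas (𝓡 n) ∞ N := IsManifold.chart_mem_maximalAtlas _
  have sψ : p ∈ ψ.source := mem_chart_source _ _
  obtain ⟨D, hD, hμ⟩ := hp.2 m hm hmp ψ mψ sψ
  have hmd := chart_md mψ
  have h1 : HasMFDerivAt (𝓡 n) (𝓡 n) ψ.symm (ψ p) (Sc ψ (ψ p)) :=
    (hmd.mdifferentiableAt_symm (ψ.map_source sψ)).hasMFDerivAt
  have h2 : HasMFDerivAt (𝓡 n) (𝓡 n) (G^[m]) (ψ.symm (ψ p)) (DN n (G^[m]) p) := by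
    rw [ψ.left_inv sψ]
    exact (iter_md hr G m p).hasMFDerivAt
  have h3 := HasMFDerivAt.comp (ψ p) h2 h1
  have h4 : HasMFDerivAt (𝓡 n) (𝓡 n) ψ ((G^[m] ∘ ψ.symm) (ψ p)) (Tc ψ p) := by
    have e0 : (G^[m] ∘ ψ.symm) (ψ p) = p := by
      rw [Function.comp_apply, ψ.left_inv sψ, hmp]
    rw [e0]
    exact (hmd.mdifferentiableAt sψ).hasMFDerivAt
  have h5 := HasMFDerivAt.comp (ψ p) h4 h3
  have h6 : HasFDerivAt (fun v => ψ (G^[m] (ψ.symm v)))
      ((Tc ψ p).comp ((DN n (G^[m]) p).comp (Sc ψ (ψ p)))) (ψ p) := h5.hasFDerivAt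
  have h7 : D = (Tc ψ p).comp ((DN n (G^[m]) p).comp (Sc ψ (ψ p))) := hD.unique h6
  have hST := ST mψ sψ
  have hTS := TS mψ sψ
  intro μ hroot
  refine hμ μ ?_
  set E : V n ≃ₗ[ℝ] V n := LinearEquiv.ofLinearMap (Tc ψ p : V n →ₗ[ℝ] V n)
    (Sc ψ (ψ p) : V n →ₗ[ℝ] V n)
    (by
      ext1 x
      exact congrArg (fun A : V n →L[ℝ] V n => A x) hTS)
    (by
      ext1 x
      exact congrArg (fun A : V n →L[ℝ] V n => A x) hST) with hE
  have h8 : (D : V n →ₗ[ℝ] V n) = E.conj (DN n (G^[m]) p : V n →ₗ[ℝ] V n) := by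
    rw [h7]
    ext1 x
    rfl
  rw [h8, LinearEquiv.charpoly_conj]
  exact hroot

/-- All periodic points of all diffeomorphisms in a neighbourhood of `F` are hyperbolic. -/
def IsStar (n : ℕ) (N : Type u) [TopologicalSpace N] [ChartedSpace (V n) N] (r : ℕ∞)
    (F : DiffM n N r) : Prop :=
  ∃ U : Set (DiffM n N r), IsOpen[strongTop n N r] U ∧ F ∈ U ∧ ∀ G ∈ U, ∀ p ∈ Per G,
    IsHyperbolicPer n G p

theorem star_of_stable {r : ℕ∞} (hr : 1 ≤ r) {F : DiffM n N r} (hF : OmegaStable n N r F) :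
    IsStar n N r F := by
  obtain ⟨U, hU, hFU, hconj⟩ := hF
  exact ⟨U, hU, hFU, fun G hG p hp =>
    Gen.stable_hyp hr (Pool.Agent.R773.TE.stable_of_mem hU hconj hG) p hp⟩

theorem near_hyp {r : ℕ∞} (hr : 1 ≤ r) {F : DiffM n N r} (hF : IsStar n N r F) :
    ∃ U : Set (DiffM n N r), IsOpen[strongTop n N r] U ∧ F ∈ U ∧ ∀ G ∈ U, ∀ (p : N) (m : ℕ),
      1 ≤ m → G^[m] p = p → IsHypMap (DN n (G^[m]) p) := by
  obtain ⟨U, hU, hFU, h⟩ := hF
  exact ⟨U, hU, hFU, fun G hG p m hm hmp => hypMap_of hr (h G hG p ⟨m, hm, hmp⟩) hm hmp⟩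

theorem orb_mem {f : N → N} (p : N) (i : ℕ) : f^[i] p ∈ orb f p := ⟨i, rfl⟩

theorem orb_finite {f : N → N} {p : N} {m : ℕ} (hm : 1 ≤ m) (hp : f^[m] p = p) :
    (orb f p).Finite := by
  have h1 : orb f p ⊆ (fun i => f^[i] p) '' (Iio m) := by
    rintro x ⟨i, rfl⟩
    refine ⟨i % m, Nat.mod_lt _ hm, ?_⟩
    have h2 : Function.IsPeriodicPt f m p := hp
    exact h2.iterate_mod_apply i
  exact ((finite_Iio m).image _).subset h1

/-- The perturbed derivatives along periodic orbits are hyperbolic. -/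
theorem pert_hyp {r : ℕ∞} (hr : 1 ≤ r) {F : DiffM n N r} (hF : IsStar n N r F) :
    ∃ U : Set (DiffM n N r), IsOpen[strongTop n N r] U ∧ F ∈ U ∧ ∃ k : ℕ, 1 ≤ k ∧
      (k : ℕ∞) ≤ r ∧ ∀ (q : ℕ) (e : N → V q), IsImm n e → ∃ c : ℝ, 0 < c ∧
        ∀ G ∈ U, ∀ (p : N) (m : ℕ), 1 ≤ m → G^[m] p = p → ∀ ρ : N → ℝ,
        Radii e (orb G p) ρ → ∀ B : N → V n →L[ℝ] V n,
        (∀ x ∈ orb G p, ∀ v, ‖DE n e x (B x v)‖ ≤ c * ρ x ^ (k - 1) * ‖DE n e x v‖) →
        IsHypMap (pprod (fun i => (ContinuousLinearMap.id ℝ (V n) + B (G^[i + 1] p)).comp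
          (DN n G (G^[i] p))) m) := by
  obtain ⟨U₀, hU₀, hFU₀, hhyp⟩ := near_hyp hr hF
  obtain ⟨U, hU, hFU, k, hk1, hkr, h⟩ := franks hr F U₀ hU₀ hFU₀
  refine ⟨U, hU, hFU, k, hk1, hkr, fun q e he => ?_⟩
  obtain ⟨c, hc, h⟩ := h q e he
  refine ⟨c, hc, fun G hG p m hm hmp ρ hρ B hB => ?_⟩
  obtain ⟨G', hG', hd⟩ := h G hG (orb G p) (orb_finite hm hmp) ρ hρ B hB
  have hit : ∀ i, G'^[i] p = G^[i] p := by
    intro i
    induction i with
    | zero => rfl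
    | succ i ih =>
      rw [Function.iterate_succ_apply', Function.iterate_succ_apply', ih]
      refine (hd _ ?_).1
      rw [← Function.iterate_succ_apply' G i p]
      exact orb_mem _ _
  have h1 : DN n (G'^[m]) p = pprod (fun i => (ContinuousLinearMap.id ℝ (V n) +
      B (G^[i + 1] p)).comp (DN n G (G^[i] p))) m := by
    rw [DN_iter hr]
    congr 1
    funext i
    rw [hit i]
    have h2 := (hd (G^[i] p) (by
      rw [← Function.iterate_succ_apply' G i p]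
      exact orb_mem _ _)).2
    rw [h2, ← Function.iterate_succ_apply' G i p]
  rw [← h1]
  exact hhyp G' hG' p m hm (by rw [hit m, hmp])

end Pool.Agent.K4H47.RH
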